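import Mathlib
import Pool.Agent.R583.DFinal

set_option autoImplicit false

/-!
# Diamond can fail on points of cofinality `ω` at an ineffable cardinal
-/

namespace Pool.Agent.Results.MP_1eeea1_lc.DiamondFails

open Cardinal Pool.Agent.Helper669.Forcing Pool.Agent.Helper669.K Pool.Agent.R583.DDefs

/-- If `κ` is regular, uncountable and ineffable in every extension by a `κ`-directed closed
forcing notion, then there is a `κ`-directed closed forcing notion which forces that `κ` is
regular (and uncountable) and ineffable, and that there is a stationary set `S` of points of `κ`
of cofinality `ω` for which the diamond principle on `S` fails. -/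
theorem result (κ : Cardinal.{0}) (h : IndestructiblyIneffable κ) :
    ∃ (P : Type) (_ : Preorder P), Nonempty P ∧ DirClosed κ P ∧ ∀ p : P,
      p ∈ StaysRegular P κ ∧ p ∈ FIneffable P κ.ord.ToType ∧
      p ∈ fex fun S : κ.ord.ToType → Set P =>
        fand (fall fun a => fimp (meets (S a)) (FCofOmega a))
          (fand (FStationary fun a => meets (S a)) (fnot (FDiamond S))) :=
  Pool.Agent.R583.D.main h

end Pool.Agent.Results.MP_1eeea1_lc.DiamondFails
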